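import Mathlib
import Pool.Agent.N290.RL.Stm

/-!
# Project RL (helper290), part XG: functions with prescribed modulus, general weights, assembly
(helper262)
-/

set_option autoImplicit false

open Complex MeasureTheory Set Filter Topology
open scoped ENNReal

namespace Pool.Agent.N262.RL

open Pool.Agent.N290.RJ Pool.Agent.N290.RK Pool.Agent.N290.RL

theorem db_star_eq {d : ℕ} {γ : E d → ℂ} {z : E d} (h : DifferentiableAt ℝ γ z) (ξ : E d) :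
    db (fun w => starRingEnd ℂ (γ w)) z ξ = starRingEnd ℂ (dd γ z ξ) := by
  have h2 : HasFDerivAt (fun w => starRingEnd ℂ (γ w))
      ((Complex.conjCLE : ℂ →L[ℝ] ℂ).comp (fderiv ℝ γ z)) z :=
    (Complex.conjCLE.hasFDerivAt (x := γ z)).comp z h.hasFDerivAt
  unfold db dd
  rw [h2.fderiv]
  simp [ContinuousLinearMap.comp_apply, Complex.conj_ofNat]

theorem norm_fderiv_le_db {d : ℕ} {γ : E d → ℂ} {z : E d} (h : DifferentiableAt ℝ γ z) (ξ : E d) :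
    ‖fderiv ℝ γ z ξ‖ ≤ ‖db γ z ξ‖ + ‖db (fun w => starRingEnd ℂ (γ w)) z ξ‖ := by
  rw [db_star_eq h, RCLike.norm_conj, fderiv_eq_db_dd]
  exact norm_add_le _ _

theorem XG_of (d : ℕ) (h2 : R2) (hN : YN d) (hF : YF d) (hX : YX d) (hQ : YQ d) : XG d := by
  intro ε₁ ε₃ hε₁ hε
  obtain ⟨ε₂, hε₂⟩ : ∃ ε₂, ε₂ = (ε₁ + ε₃) / 2 := ⟨_, rfl⟩
  obtain ⟨φ, L₁, φ1, hL₁, φ2, φ3, φ4, φ5, φ6⟩ := h2 ε₁ ε₂ hε₁ (by linarith)
  obtain ⟨χ, L₂, χ1, hL₂, χ2, χ3, χ4, χ5, χ6⟩ := h2 ε₂ ε₃ (by linarith) (by linarith)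
  obtain ⟨L, hL, hLL₁, hLL₂⟩ : ∃ L : ℝ, 1 ≤ L ∧ L₁ ≤ L ∧ L₂ ≤ L :=
    ⟨max (max L₁ L₂) 1, le_max_right _ _, (le_max_left _ _).trans (le_max_left _ _),
      (le_max_right _ _).trans (le_max_left _ _)⟩
  obtain ⟨A, hA⟩ : ∃ A, A = 1024 * L := ⟨_, rfl⟩
  obtain ⟨C₃, hC₃, hX3⟩ := hX A L
  obtain ⟨C₄, hC₄, hQ4⟩ := hQ A L
  obtain ⟨C, hC⟩ : ∃ C, C = 2 * C₃ + 2 * C₄ := ⟨_, rfl⟩
  refine ⟨C, by rw [hC]; positivity, ?_⟩
  intro f a f1 f2 aw f3
  have D : DatG d A L ε₂ φ χ a f :=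
    { hL := hL
      hA := hA.ge
      aw := aw
      φ1 := φ1
      φ2 := φ2
      φ3 := fun w => (φ5 w).trans hLL₁
      φ4 := fun w => (φ6 w).trans hLL₁
      φ5 := φ4
      χ1 := χ1
      χ2 := χ2
      χ3 := fun w => (χ5 w).trans hLL₂
      χ5 := χ3
      f1 := f1
      f2 := f2
      f3 := f3 }
  refine ⟨Xj φ χ A a f, Pj φ A a f, fun k => ?_⟩
  obtain ⟨x1, x2⟩ := hX3 ε₂ φ χ a f D k
  obtain ⟨p1, p2⟩ := hQ4 ε₂ φ χ a f D k
  refine ⟨x1, p1, fun z hz => ?_⟩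
  obtain ⟨x3, x3', x4⟩ := x2 z hz
  obtain ⟨p3, p4, p5⟩ := p2 z hz
  obtain ⟨s0, s1, w0, w1, -⟩ := hN z hz k
  obtain ⟨a0, a1⟩ := aw.a2 z hz
  have m3 : C₃ ≤ C := by rw [hC]; linarith
  have m4 : C₄ ≤ C := by rw [hC]; linarith
  have hC0 : 0 < C := hC₃.trans_le m3
  have hq : 0 ≤ st k z / ww z k := div_nonneg s0 w0.le
  refine ⟨x3.trans m3, p3.trans m4, ?_, ?_, ?_, ?_, fun ξ => ?_⟩
  · intro hb
    unfold Xj
    rw [χ4 _ hb]
    simp
  · intro hb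
    unfold Xj lj lam
    rw [χ3 _ (hb.trans (by linarith)), φ3 _ hb, norm_mul, norm_mul, mul_comm I,
      norm_exp_ofReal_mul_I, mul_one, Complex.norm_real, Complex.norm_real, norm_one, mul_one,
      Real.norm_eq_abs]
    refine le_trans ?_ (le_abs_self _)
    nlinarith [sq_nonneg (al A a k z)]
  · refine x3'.trans ?_
    gcongr
  · refine p4.trans ?_
    gcongr
  · obtain ⟨x5, x6⟩ := x4 ξ
    have p6 := p5 ξ
    have hlen := len_nonneg z ξ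
    have hw4 : ww z k ^ 4 ≤ 1 := pow_le_one₀ w0.le w1
    have hx : DifferentiableAt ℝ (Xj φ χ A a f k) z :=
      (x1.differentiableOn (by norm_num)).differentiableAt (B_open.mem_nhds hz)
    have h6 : C₃ * a z ^ 2 * ww z k ^ 4 * len z ξ ≤ C * a z ^ 2 * len z ξ := by
      calc C₃ * a z ^ 2 * ww z k ^ 4 * len z ξ
          ≤ C * a z ^ 2 * 1 * len z ξ := by gcongr
        _ = _ := by ring
    refine ⟨x5.trans h6, x6.trans h6, ?_, ?_⟩
    · have h7 := norm_fderiv_le_db hx ξ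
      have h8 : ‖db (fun w => starRingEnd ℂ (Xj φ χ A a f k w)) z ξ‖ ≤
          ‖Pj φ A a f k z‖ * ‖xj f k z ξ‖ + C₃ * a z ^ 2 * ww z k ^ 4 * len z ξ := by
        have h9 := norm_add_le (db (fun w => starRingEnd ℂ (Xj φ χ A a f k w)) z ξ -
          Pj φ A a f k z * starRingEnd ℂ (xj f k z ξ)) (Pj φ A a f k z * starRingEnd ℂ (xj f k z ξ))
        rw [sub_add_cancel, norm_mul, RCLike.norm_conj] at h9
        linarith
      obtain ⟨-, -, -, y⟩ := hF a f aw f1 f3 k z hz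
      have h10 := (y ξ).1
      have h11 : ‖Pj φ A a f k z‖ * ‖xj f k z ξ‖ ≤ C₄ * (3 / 2 * a z * ww z k ^ 7 * len z ξ) := by
        gcongr
      have e7 : ww z k ^ 7 ≤ ww z k ^ 3 := pow_le_pow_of_le_one w0.le w1 (by norm_num)
      have e4 : ww z k ^ 4 ≤ ww z k ^ 3 := pow_le_pow_of_le_one w0.le w1 (by norm_num)
      have h12 : C₄ * (3 / 2 * a z * ww z k ^ 7 * len z ξ) ≤
          2 * C₄ * (a z * ww z k ^ 3 * len z ξ) := by
        calc C₄ * (3 / 2 * a z * ww z k ^ 7 * len z ξ)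
            ≤ C₄ * (2 * a z * ww z k ^ 3 * len z ξ) := by gcongr; norm_num
          _ = _ := by ring
      have h13 : C₃ * a z ^ 2 * ww z k ^ 4 * len z ξ ≤ C₃ * (a z * ww z k ^ 3 * len z ξ) := by
        have e2 : a z ^ 2 ≤ a z := by nlinarith
        calc C₃ * a z ^ 2 * ww z k ^ 4 * len z ξ
            ≤ C₃ * a z * ww z k ^ 3 * len z ξ := by gcongr
          _ = _ := by ring
      have h14 : ‖fderiv ℝ (Xj φ χ A a f k) z ξ‖ ≤
          (2 * C₃ + 2 * C₄) * (a z * ww z k ^ 3 * len z ξ) := by linarith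
      calc ‖fderiv ℝ (Xj φ χ A a f k) z ξ‖
          ≤ (2 * C₃ + 2 * C₄) * (a z * ww z k ^ 3 * len z ξ) := h14
        _ = _ := by rw [hC]; ring
    · refine p6.trans ?_
      gcongr

end Pool.Agent.N262.RL
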